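import Pool.Agent.Q36.FD.Comb

set_option autoImplicit false

/-!
Vanishing of the homology of down-closed families of subsets of `Fin n` in one degree: small vertex
sets, dominated vertices, deletion and link of a vertex, and enlarging the vertex set.
-/

namespace Q36.PD

open Finset Pool.Agent.Q14.Kos Pool.Agent.H677R3.EdgeReg Q36.FD

variable {n : ℕ} (k : Type*) [Field k]

/-- the homology vanishes in degree `i` -/
def Acy (F : Set (Finset (Fin n))) (i : ℕ) : Prop := ∀ c ∈ ZC k F i, c ∈ BC k F i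

variable {k}

lemma acy_of_zero {F : Set (Finset (Fin n))} {i : ℕ} (h : ∀ c ∈ ZC k F i, c = 0) :
    Acy k F i := by
  intro c hc
  rw [h c hc]
  exact Submodule.zero_mem _

/-- few vertices -/
lemma acy_small {F : Set (Finset (Fin n))} {i : ℕ} (U : Finset (Fin n)) (hF : ∀ T ∈ F, T ⊆ U)
    (hU : U.card ≤ i) (hi : 1 ≤ i) : Acy k F i := by
  refine acy_of_zero fun c hc => ?_
  have hz : ∀ T, T ≠ U → c T = 0 := by
    intro T hT
    by_contra h
    obtain ⟨h1, h2⟩ := hc.1 T h
    exact hT (eq_of_subset_of_card_le (hF T h1) (by omega))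
  have hUz : c U = 0 := by
    by_contra h
    obtain ⟨h1, h2⟩ := hc.1 U h
    obtain ⟨j, hj⟩ : U.Nonempty := by
      rw [← card_pos]; omega
    have h3 : bd k c (U.erase j) = 0 := by
      have h4 : bd k c = 0 := hc.2
      rw [h4]; rfl
    rw [bd_apply, sum_eq_single j] at h3
    · rw [insert_erase hj] at h3
      rcases mul_eq_zero.1 h3 with h4 | h4
      · have h5 := sg_mul_self (k := k) j (U.erase j)
        rw [h4, mul_zero] at h5
        exact zero_ne_one h5
      · exact h h4
    · intro v hv hvj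
      rw [mem_compl, mem_erase, not_and] at hv
      rw [hz, mul_zero]
      intro h4
      have h5 : v ∈ U := by rw [← h4]; exact mem_insert_self _ _
      exact hv hvj h5
    · intro h4
      rw [mem_compl, mem_erase, not_not] at h4
      exact absurd rfl h4.1
  funext T
  by_cases h : T = U
  · rw [h, hUz]; rfl
  · rw [hz T h]; rfl

lemma hs_apply_of_mem {w : Fin n} {c : Finset (Fin n) → k} {T : Finset (Fin n)} (h : w ∈ T) :
    hs w k c T = sg k w (T.erase w) * c (T.erase w) := by
  unfold hs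
  rw [if_pos h, smul_eq_mul]

lemma hs_apply_of_notMem {w : Fin n} {c : Finset (Fin n) → k} {T : Finset (Fin n)} (h : w ∉ T) :
    hs w k c T = 0 := by
  unfold hs
  rw [if_neg h]

/-- the part of a chain on the sets containing `v` -/
def part (v : Fin n) (c : Finset (Fin n) → k) : Finset (Fin n) → k :=
  fun T => if v ∈ T then c T else 0

lemma part_ne {v : Fin n} {c : Finset (Fin n) → k} {T : Finset (Fin n)} (h : part v c T ≠ 0) :
    v ∈ T ∧ c T ≠ 0 := by
  unfold part at h
  split_ifs at h with h1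
  · exact ⟨h1, h⟩
  · exact absurd rfl h

lemma sub_part_ne {v : Fin n} {c : Finset (Fin n) → k} {T : Finset (Fin n)}
    (h : (c - part v c) T ≠ 0) : v ∉ T ∧ c T ≠ 0 := by
  rw [Pi.sub_apply] at h
  unfold part at h
  split_ifs at h with h1
  · exact absurd (sub_self _) h
  · rw [sub_zero] at h
    exact ⟨h1, h⟩

/-- a dominated vertex can be removed -/
lemma acy_dom {F : Set (Finset (Fin n))} (hF : Down F) {i : ℕ} {v w : Fin n} (hvw : w ≠ v)
    (h : ∀ T ∈ F, v ∈ T → insert w T ∈ F) (hd : Acy k {T | T ∈ F ∧ v ∉ T} i) : Acy k F i := by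
  intro z hz
  have hz0 : bd k z = 0 := hz.2
  set zv := part v z with hzv
  have hb : bd k zv = - bd k (z - zv) := by
    rw [map_sub, hz0, zero_sub, neg_neg]
  have hbne : ∀ T, bd k zv T ≠ 0 → v ∉ T ∧ insert v T ∈ F ∧ (insert v T).card = i := by
    intro T hT
    have h1 : v ∉ T := by
      have h2 : bd k (z - zv) T ≠ 0 := by
        rw [hb] at hT
        intro h3
        apply hT
        rw [Pi.neg_apply, h3, neg_zero]
      obtain ⟨j, hj, hj'⟩ := bd_ne_zero h2
      intro h3
      exact (sub_part_ne hj').1 (mem_insert_of_mem h3)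
    obtain ⟨j, hj, hj'⟩ := bd_ne_zero hT
    obtain ⟨h2, h3⟩ := part_ne hj'
    have h4 : v = j := by
      rcases mem_insert.1 h2 with h4 | h4
      · exact h4
      · exact absurd h4 h1
    subst h4
    exact ⟨h1, (hz.1 _ h3).1, (hz.1 _ h3).2⟩
  have hy : hs w k zv ∈ CC k F (i + 1) := by
    intro T hT
    obtain ⟨h1, h2⟩ := hs_ne_zero hT
    obtain ⟨h3, h4⟩ := part_ne h2
    have h5 := h _ (hz.1 _ h4).1 h3
    rw [insert_erase h1] at h5
    have h6 := (hz.1 _ h4).2
    rw [card_erase_of_mem h1] at h6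
    have h7 : 0 < T.card := card_pos.2 ⟨w, h1⟩
    exact ⟨h5, by omega⟩
  have hz' : z - bd k (hs w k zv) ∈ ZC k {T | T ∈ F ∧ v ∉ T} i := by
    refine ⟨?_, ?_⟩
    · rw [bd_hs]
      intro T hT
      by_cases h1 : (z - zv) T = 0
      · have h2 : hs w k (bd k zv) T ≠ 0 := by
          intro h3
          apply hT
          have : z - (zv - hs w k (bd k zv)) = (z - zv) + hs w k (bd k zv) := by abel
          rw [this, Pi.add_apply, h1, h3, add_zero]
        obtain ⟨h3, h4⟩ := hs_ne_zero h2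
        obtain ⟨h5, h6, h7⟩ := hbne _ h4
        have h8 := h _ h6 (mem_insert_self _ _)
        have h9 : T ⊆ insert w (insert v (T.erase w)) := by
          intro x hx
          by_cases hxw : x = w
          · rw [hxw]; exact mem_insert_self _ _
          · exact mem_insert_of_mem (mem_insert_of_mem (mem_erase.2 ⟨hxw, hx⟩))
        refine ⟨⟨hF _ h8 _ h9, ?_⟩, ?_⟩
        · intro h10
          exact h5 (mem_erase.2 ⟨hvw.symm, h10⟩)
        · rw [card_insert_of_notMem h5, card_erase_of_mem h3] at h7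
          have h10 : 0 < T.card := card_pos.2 ⟨w, h3⟩
          omega
      · obtain ⟨h2, h3⟩ := sub_part_ne h1
        exact ⟨⟨(hz.1 _ h3).1, h2⟩, (hz.1 _ h3).2⟩
    · change bd k (z - bd k (hs w k zv)) = 0
      rw [map_sub, hz0, bd_bd, sub_zero]
  obtain ⟨y, hy1, hy2⟩ := hd _ hz'
  refine ⟨y + hs w k zv, Submodule.add_mem _ ?_ hy, ?_⟩
  · intro T hT
    obtain ⟨h1, h2⟩ := hy1 T hT
    exact ⟨h1.1, h2⟩
  · rw [map_add, hy2]
    abel

/-- deletion and link of a vertex -/
lemma acy_del {F : Set (Finset (Fin n))} (hF : Down F) {i : ℕ} {v : Fin n} (h : Acy k F i)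
    (hl : Acy k {T | v ∉ T ∧ insert v T ∈ F} i) : Acy k {T | T ∈ F ∧ v ∉ T} i := by
  intro z hz
  have hz0 : bd k z = 0 := hz.2
  have hzF : z ∈ ZC k F i := by
    refine ⟨fun T hT => ?_, hz.2⟩
    obtain ⟨h1, h2⟩ := hz.1 T hT
    exact ⟨h1.1, h2⟩
  obtain ⟨y, hy, hyz⟩ := h z hzF
  set yv := part v y with hyv
  -- the link part
  let u : Finset (Fin n) → k := fun T => if v ∈ T then 0 else sg k v T * y (insert v T)
  have hune : ∀ T, u T ≠ 0 → v ∉ T ∧ y (insert v T) ≠ 0 := by
    intro T hT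
    simp only [u] at hT
    split_ifs at hT with h1
    · exact absurd rfl hT
    · exact ⟨h1, fun h2 => hT (by rw [h2, mul_zero])⟩
  have hyu : yv = hs v k u := by
    funext T
    by_cases h1 : v ∈ T
    · rw [hs_apply_of_mem h1]
      simp only [u]
      rw [if_neg (notMem_erase v T), insert_erase h1, ← mul_assoc, sg_mul_self, one_mul]
      exact if_pos h1
    · rw [hs_apply_of_notMem h1]
      exact if_neg h1
  have hbd : z = bd k (y - yv) + u - hs v k (bd k u) := by
    have : bd k y = bd k (y - yv) + bd k yv := by rw [← map_add]; congr 1; abel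
    rw [← hyz, this, hyu, bd_hs]
    abel
  have hbu : bd k u = 0 := by
    funext T
    change bd k u T = 0
    by_contra h1
    obtain ⟨j, hj, hj'⟩ := bd_ne_zero h1
    have hvT : v ∉ T := fun h2 => (hune _ hj').1 (mem_insert_of_mem h2)
    have h2 := congrFun hbd (insert v T)
    rw [Pi.sub_apply, Pi.add_apply, hs_apply_of_mem (mem_insert_self _ _),
      erase_insert hvT] at h2
    have h3 : z (insert v T) = 0 := by
      by_contra h4
      exact (hz.1 _ h4).1.2 (mem_insert_self _ _)
    have h4 : bd k (y - yv) (insert v T) = 0 := by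
      by_contra h4
      obtain ⟨j, hj, hj'⟩ := bd_ne_zero h4
      exact (sub_part_ne hj').1 (mem_insert_of_mem (mem_insert_self _ _))
    have h5 : u (insert v T) = 0 := by
      by_contra h5
      exact (hune _ h5).1 (mem_insert_self _ _)
    rw [h3, h4, h5, add_zero, zero_sub, eq_comm, neg_eq_zero] at h2
    rcases mul_eq_zero.1 h2 with h6 | h6
    · have h7 := sg_mul_self (k := k) v T
      rw [h6, mul_zero] at h7
      exact zero_ne_one h7
    · exact h1 h6
  have hu : u ∈ ZC k {T | v ∉ T ∧ insert v T ∈ F} i := by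
    refine ⟨fun T hT => ?_, hbu⟩
    obtain ⟨h1, h2⟩ := hune T hT
    obtain ⟨h3, h4⟩ := hy _ h2
    rw [card_insert_of_notMem h1] at h4
    exact ⟨⟨h1, h3⟩, by omega⟩
  obtain ⟨t, ht, htu⟩ := hl u hu
  refine ⟨(y - yv) + t, Submodule.add_mem _ ?_ ?_, ?_⟩
  · intro T hT
    obtain ⟨h1, h2⟩ := sub_part_ne hT
    exact ⟨⟨(hy _ h2).1, h1⟩, (hy _ h2).2⟩
  · intro T hT
    obtain ⟨⟨h1, h2⟩, h3⟩ := ht T hT
    exact ⟨⟨hF _ h2 _ (subset_insert _ _), h1⟩, h3⟩
  · rw [hbu, hs_zero, sub_zero] at hbd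
    rw [map_add, htu, ← hbd]

/-! ### Enlarging the vertex set -/

section transfer

variable {p : ℕ}

/-- the sets of old vertices -/
def Old (T : Finset (Fin (n + p))) : Prop := ∃ S : Finset (Fin n), T = S.map (Fin.castAddEmb p)

lemma old_sub {T T' : Finset (Fin (n + p))} (h : Old T') (hT : T ⊆ T') : Old T := by
  obtain ⟨S, rfl⟩ := h
  refine ⟨univ.filter fun v => Fin.castAddEmb p v ∈ T, ?_⟩
  ext x
  rw [mem_map]
  constructor
  · intro hx
    obtain ⟨v, hv, rfl⟩ := mem_map.1 (hT hx)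
    exact ⟨v, by rw [mem_filter]; exact ⟨mem_univ _, hx⟩, rfl⟩
  · rintro ⟨v, hv, rfl⟩
    exact (mem_filter.1 hv).2

lemma sg_map (v : Fin n) (S : Finset (Fin n)) :
    sg k (Fin.castAddEmb p v) (S.map (Fin.castAddEmb p)) = sg k v S := by
  unfold sg
  rw [Finset.filter_map, Finset.card_map]
  rfl

lemma bd_map {y : Finset (Fin (n + p)) → k} (hy : ∀ T, y T ≠ 0 → Old T) (S : Finset (Fin n)) :
    bd k y (S.map (Fin.castAddEmb p)) =
      bd k (fun S : Finset (Fin n) => y (S.map (Fin.castAddEmb p))) S := by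
  rw [bd_apply, bd_apply]
  have h1 : ∑ j ∈ Sᶜ, sg k j S * y ((insert j S).map (Fin.castAddEmb p)) =
      ∑ j ∈ (Sᶜ).map (Fin.castAddEmb p), sg k j (S.map (Fin.castAddEmb p)) *
        y (insert j (S.map (Fin.castAddEmb p))) := by
    rw [sum_map]
    refine sum_congr rfl fun j _ => ?_
    rw [sg_map, map_insert]
  rw [h1]
  symm
  apply sum_subset
  · intro x hx
    obtain ⟨v, hv, rfl⟩ := mem_map.1 hx
    rw [mem_compl] at hv ⊢
    rwa [mem_map' (Fin.castAddEmb p)]
  · intro x hx hx2
    by_contra h2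
    have h3 : y (insert x (S.map (Fin.castAddEmb p))) ≠ 0 := fun h4 => h2 (by rw [h4, mul_zero])
    obtain ⟨S', hS'⟩ := hy _ h3
    have h4 : x ∈ S'.map (Fin.castAddEmb p) := by rw [← hS']; exact mem_insert_self _ _
    obtain ⟨v, hv, rfl⟩ := mem_map.1 h4
    apply hx2
    rw [mem_map' (Fin.castAddEmb p), mem_compl]
    rw [mem_compl, mem_map' (Fin.castAddEmb p)] at hx
    exact hx

lemma map_inj' {S S' : Finset (Fin n)} (h : S.map (Fin.castAddEmb p) = S'.map (Fin.castAddEmb p)) :
    S = S' := Finset.map_injective _ h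

/-- restriction to the old vertices -/
lemma acy_transfer {F : Set (Finset (Fin n))} {F' : Set (Finset (Fin (n + p)))} {i : ℕ}
    (hFF : ∀ T : Finset (Fin n), T.map (Fin.castAddEmb p) ∈ F' ↔ T ∈ F)
    (hF' : ∀ T ∈ F', Old T) (h : Acy k F' i) : Acy k F i := by
  classical
  intro z hz
  let P : Finset (Fin (n + p)) → k := fun T => if hT : Old T then z hT.choose else 0
  have hP : ∀ S : Finset (Fin n), P (S.map (Fin.castAddEmb p)) = z S := by
    intro S
    have h1 : Old (S.map (Fin.castAddEmb p)) := ⟨S, rfl⟩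
    simp only [P]
    rw [dif_pos h1]
    congr 1
    exact (map_inj' h1.choose_spec).symm
  have hP0 : ∀ T, P T ≠ 0 → Old T := by
    intro T hT
    by_contra h1
    exact hT (dif_neg h1)
  have hPZ : P ∈ ZC k F' i := by
    refine ⟨fun T hT => ?_, ?_⟩
    · obtain ⟨S, rfl⟩ := hP0 T hT
      rw [hP] at hT
      obtain ⟨h1, h2⟩ := hz.1 S hT
      exact ⟨(hFF S).2 h1, by rw [card_map, h2]⟩
    · change bd k P = 0
      funext T
      by_cases hT : Old T
      · obtain ⟨S, rfl⟩ := hT
        rw [bd_map hP0]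
        have h1 : (fun S : Finset (Fin n) => P (S.map (Fin.castAddEmb p))) = z := funext hP
        rw [h1]
        have h2 : bd k z = 0 := hz.2
        rw [h2]; rfl
      · change bd k P T = 0
        by_contra h1
        obtain ⟨j, hj, hj'⟩ := bd_ne_zero h1
        exact hT (old_sub (hP0 _ hj') (subset_insert _ _))
  obtain ⟨y, hy, hyP⟩ := h P hPZ
  refine ⟨fun S => y (S.map (Fin.castAddEmb p)), ?_, ?_⟩
  · intro S hS
    obtain ⟨h1, h2⟩ := hy _ hS
    rw [card_map] at h2
    exact ⟨(hFF S).1 h1, h2⟩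
  · funext S
    have h1 := bd_map (k := k) (fun T hT => hF' T (hy T hT).1) S
    rw [← h1, hyP, hP]

end transfer

end Q36.PD
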