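import Mathlib

set_option autoImplicit false

/-!
Counting the minimal sets of maximizers.
-/

namespace Q36.PD

open Finset

variable {q r : ℕ}

/-- weight on a set -/
def val (g : Fin q → ℕ) (B : Finset (Fin q)) : ℕ := ∑ i ∈ B, g i

/-- largest weight -/
def mx (G : Finset (Fin q → ℕ)) (B : Finset (Fin q)) : ℕ := G.sup fun g => val g B

/-- the maximizers -/
def att (G : Finset (Fin q → ℕ)) (B : Finset (Fin q)) : Finset (Fin q → ℕ) :=
  G.filter fun g => val g B = mx G B

lemma val_mono (g : Fin q → ℕ) {B B' : Finset (Fin q)} (h : B' ⊆ B) : val g B' ≤ val g B :=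
  sum_le_sum_of_subset h

lemma val_le_mx {G : Finset (Fin q → ℕ)} {g : Fin q → ℕ} (hg : g ∈ G) (B : Finset (Fin q)) :
    val g B ≤ mx G B := Finset.le_sup (f := fun g => val g B) hg

lemma mx_mono (G : Finset (Fin q → ℕ)) {B B' : Finset (Fin q)} (h : B' ⊆ B) :
    mx G B' ≤ mx G B := Finset.sup_le fun g hg => (val_mono g h).trans (val_le_mx hg B)

lemma att_nonempty {G : Finset (Fin q → ℕ)} (hG : G.Nonempty) (B : Finset (Fin q)) :
    (att G B).Nonempty := by
  obtain ⟨g, hg, h⟩ := Finset.exists_mem_eq_sup G hG fun g => val g B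
  exact ⟨g, mem_filter.2 ⟨hg, h.symm⟩⟩

lemma mem_att {G : Finset (Fin q → ℕ)} {B : Finset (Fin q)} {g : Fin q → ℕ} :
    g ∈ att G B ↔ g ∈ G ∧ val g B = mx G B := mem_filter

lemma att_sub {G : Finset (Fin q → ℕ)} {B B' : Finset (Fin q)} (h : B' ⊆ B)
    (hm : mx G B' = mx G B) : att G B' ⊆ att G B := by
  intro g hg
  obtain ⟨h1, h2⟩ := mem_att.1 hg
  refine mem_att.2 ⟨h1, le_antisymm (val_le_mx h1 B) ?_⟩
  rw [← hm, ← h2]
  exact val_mono g h

/-- the sets of maximizers -/
def img (G : Finset (Fin q → ℕ)) : Finset (Finset (Fin q → ℕ)) :=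
  (univ.filter fun B => 0 < mx G B).image (att G)

/-- the minimal ones -/
def tmin (G : Finset (Fin q → ℕ)) : Finset (Finset (Fin q → ℕ)) :=
  (img G).filter fun X => ∀ Y ∈ img G, Y ⊆ X → Y = X

lemma mem_img {G : Finset (Fin q → ℕ)} {X : Finset (Fin q → ℕ)} :
    X ∈ img G ↔ ∃ B, 0 < mx G B ∧ att G B = X := by
  unfold img
  rw [mem_image]
  simp

lemma exists_tmin {G : Finset (Fin q → ℕ)} {B : Finset (Fin q)} (hB : 0 < mx G B) :
    ∃ X ∈ tmin G, X ⊆ att G B := by
  have hne : ((img G).filter (· ⊆ att G B)).Nonempty :=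
    ⟨att G B, mem_filter.2 ⟨mem_img.2 ⟨B, hB, rfl⟩, Subset.refl _⟩⟩
  obtain ⟨X, hX, hmin⟩ := Finset.exists_min_image _ card hne
  obtain ⟨h1, h2⟩ := mem_filter.1 hX
  refine ⟨X, mem_filter.2 ⟨h1, fun Y hY hYX => ?_⟩, h2⟩
  exact eq_of_subset_of_card_le hYX (hmin Y (mem_filter.2 ⟨hY, hYX.trans h2⟩))

lemma exists_rep {G : Finset (Fin q → ℕ)} {X : Finset (Fin q → ℕ)} (hX : X ∈ tmin G) :
    ∃ B, 0 < mx G B ∧ att G B = X ∧ ∀ B', 0 < mx G B' → att G B' = X → B.card ≤ B'.card := by
  obtain ⟨B0, hB0, hX0⟩ := mem_img.1 (mem_filter.1 hX).1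
  have hne : (univ.filter fun B => 0 < mx G B ∧ att G B = X).Nonempty :=
    ⟨B0, mem_filter.2 ⟨mem_univ _, hB0, hX0⟩⟩
  obtain ⟨B, hB, hmin⟩ := Finset.exists_min_image _ card hne
  obtain ⟨-, h1, h2⟩ := mem_filter.1 hB
  exact ⟨B, h1, h2, fun B' h3 h4 => hmin B' (mem_filter.2 ⟨mem_univ _, h3, h4⟩)⟩

/-- support -/
def sp (g : Fin q → ℕ) : Finset (Fin q) := univ.filter fun i => g i ≠ 0

lemma val_inter_sp (g : Fin q → ℕ) (B : Finset (Fin q)) : val g (B ∩ sp g) = val g B := by
  unfold val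
  apply sum_subset inter_subset_left
  intro x hx hx2
  by_contra h
  exact hx2 (mem_inter.2 ⟨hx, mem_filter.2 ⟨mem_univ _, h⟩⟩)

lemma rep_sub {G : Finset (Fin q → ℕ)} {X : Finset (Fin q → ℕ)} (hX : X ∈ tmin G)
    {B : Finset (Fin q)} (h1 : 0 < mx G B) (h2 : att G B = X)
    (h3 : ∀ B', 0 < mx G B' → att G B' = X → B.card ≤ B'.card) {g : Fin q → ℕ} (hg : g ∈ X) :
    B ⊆ sp g := by
  rw [← h2] at hg
  obtain ⟨hgG, hgB⟩ := mem_att.1 hg
  have h4 : mx G (B ∩ sp g) = mx G B := by
    apply le_antisymm (mx_mono G inter_subset_left)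
    rw [← hgB, ← val_inter_sp g B]
    exact val_le_mx hgG _
  have h5 : att G (B ∩ sp g) = X := by
    refine (mem_filter.1 hX).2 _ (mem_img.2 ⟨_, h4 ▸ h1, rfl⟩) ?_
    rw [← h2]
    exact att_sub inter_subset_left h4
  have h6 := eq_of_subset_of_card_le inter_subset_left (h3 _ (h4 ▸ h1) h5)
  rw [← h6]
  exact inter_subset_right

/-- indicator vector -/
def ind (B : Finset (Fin q)) : Fin q → ℕ := fun i => if i ∈ B then 1 else 0

lemma val_ind (B C : Finset (Fin q)) : val (ind B) C = (C ∩ B).card := by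
  unfold val ind
  rw [sum_ite_mem, sum_const, smul_eq_mul, mul_one]

lemma eq_ind {g : Fin q → ℕ} (h : ∀ i, g i ≤ 1) : g = ind (sp g) := by
  funext i
  unfold ind sp
  have := h i
  by_cases h1 : g i = 0
  · simp [h1]
  · simp only [mem_filter, mem_univ, true_and, h1, not_false_eq_true, if_true, ne_eq]
    omega

/-- many `r`-sets contain a smaller set -/
lemma many {S : Finset (Fin q)} (hr : 1 ≤ r) (hq : r ≤ q) (hS : S.card ≤ r - 1) :
    q - r + 1 ≤ ((powersetCard r (univ : Finset (Fin q))).filter (S ⊆ ·)).card := by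
  obtain ⟨S', h1, -, h3⟩ := Finset.exists_subsuperset_card_eq (subset_univ S) hS
    (by rw [card_univ, Fintype.card_fin]; omega)
  have h4 : (S'ᶜ.image fun j => insert j S').card = q - r + 1 := by
    rw [card_image_of_injOn, card_compl, Fintype.card_fin, h3]
    · omega
    · intro x hx y hy hxy
      simp only at hxy
      have hx' : x ∉ S' := by simpa using hx
      have : x ∈ insert y S' := by rw [← hxy]; exact mem_insert_self _ _
      rcases mem_insert.1 this with h | h
      · exact h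
      · exact absurd h hx'
  rw [← h4]
  apply card_le_card
  intro B hB
  obtain ⟨j, hj, rfl⟩ := mem_image.1 hB
  rw [mem_compl] at hj
  rw [mem_filter, mem_powersetCard]
  refine ⟨⟨subset_univ _, ?_⟩, h1.trans (subset_insert _ _)⟩
  rw [card_insert_of_notMem hj, h3]
  omega

variable {G : Finset (Fin q → ℕ)}

lemma val_univ_le (hG : ∀ g ∈ G, ∑ i, g i = r) {g : Fin q → ℕ} (hg : g ∈ G)
    (B : Finset (Fin q)) : val g B ≤ r := by
  rw [← hG g hg]
  exact val_mono g (subset_univ B)

lemma mx_le (hG : ∀ g ∈ G, ∑ i, g i = r) (B : Finset (Fin q)) : mx G B ≤ r :=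
  Finset.sup_le fun _ hg => val_univ_le hG hg B

/-- a large set containing the support of a vector with an entry `≥ 2` -/
lemma not_clean (hG : ∀ g ∈ G, ∑ i, g i = r) {g : Fin q → ℕ} (hg : g ∈ G) {j : Fin q}
    (hj : 2 ≤ g j) {B : Finset (Fin q)} (hB : sp g ⊆ B) : att G B ≠ {ind B} := by
  intro h
  have h1 : g ∈ att G B := by
    refine mem_att.2 ⟨hg, le_antisymm (val_le_mx hg B) ?_⟩
    have h2 : val g B = r := by
      rw [← hG g hg]
      unfold val
      apply sum_subset (subset_univ B)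
      intro x _ hx
      by_contra h3
      exact hx (hB (mem_filter.2 ⟨mem_univ _, h3⟩))
    rw [h2]
    exact mx_le hG B
  rw [h, mem_singleton] at h1
  rw [h1] at hj
  unfold ind at hj
  split_ifs at hj <;> omega

lemma card_sp_le (hG : ∀ g ∈ G, ∑ i, g i = r) {g : Fin q → ℕ} (hg : g ∈ G) {j : Fin q}
    (hj : 2 ≤ g j) : (sp g).card ≤ r - 1 := by
  have h1 : (sp g).card < ∑ i ∈ sp g, g i := by
    rw [card_eq_sum_ones]
    apply sum_lt_sum
    · intro i hi
      exact Nat.one_le_iff_ne_zero.2 (mem_filter.1 hi).2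
    · exact ⟨j, mem_filter.2 ⟨mem_univ _, by omega⟩, by omega⟩
  have h2 : ∑ i ∈ sp g, g i ≤ r := val_univ_le hG hg (sp g)
  omega

lemma claim (hG : ∀ g ∈ G, ∑ i, g i = r) (hGn : G.Nonempty) (hr : 1 ≤ r) (hq : r ≤ q)
    {X : Finset (Fin q → ℕ)} (hX : X ∈ tmin G) {B : Finset (Fin q)} (h1 : 0 < mx G B)
    (h2 : att G B = X) (h3 : ∀ B', 0 < mx G B' → att G B' = X → B.card ≤ B'.card)
    (hc : ∀ C ∈ powersetCard r (univ : Finset (Fin q)), att G C = {ind C} → X ≠ {ind C}) :
    q - r + 1 ≤ (((powersetCard r (univ : Finset (Fin q))).filter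
      fun C => att G C ≠ {ind C}).filter (B ⊆ ·)).card := by
  by_cases hsq : ∃ g ∈ X, ∃ j, 2 ≤ g j
  · obtain ⟨g, hgX, j, hj⟩ := hsq
    have hg : g ∈ G := by
      rw [← h2] at hgX
      exact (mem_att.1 hgX).1
    refine (many hr hq (card_sp_le hG hg hj)).trans (card_le_card ?_)
    intro C hC
    obtain ⟨h4, h5⟩ := mem_filter.1 hC
    rw [mem_filter, mem_filter]
    exact ⟨⟨h4, not_clean hG hg hj h5⟩, (rep_sub hX h1 h2 h3 hgX).trans h5⟩
  · have hsq' : ∀ g ∈ X, g = ind (sp g) := by
      intro g hg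
      apply eq_ind
      intro i
      by_contra h
      exact hsq ⟨g, hg, i, by omega⟩
    have hsub : ∀ g ∈ X, B ⊆ sp g := fun g hg => rep_sub hX h1 h2 h3 hg
    have hmB : mx G B = B.card := by
      obtain ⟨g, hg⟩ := att_nonempty hGn B
      rw [← (mem_att.1 hg).2]
      rw [h2] at hg
      conv_lhs => rw [hsq' g hg]
      rw [val_ind, inter_eq_left.2 (hsub g hg)]
    have hcard : ∀ g ∈ X, (sp g).card = r := by
      intro g hg
      have h4 : g ∈ G := by
        rw [← h2] at hg
        exact (mem_att.1 hg).1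
      rw [← hG g h4]
      conv_rhs => rw [hsq' g hg]
      have := val_ind (sp g) univ
      unfold val at this
      rw [this, univ_inter]
    have hBr : B.card ≤ r - 1 := by
      by_contra hB
      obtain ⟨g, hg⟩ := att_nonempty hGn B
      rw [h2] at hg
      have h5 : ∀ g ∈ X, g = ind B := by
        intro g hg
        have h6 := hsub g hg
        have h7 := hcard g hg
        have h8 := eq_of_subset_of_card_le h6 (by omega)
        rw [h8]
        exact hsq' g hg
      have h9 : X = {ind B} := by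
        ext x
        rw [mem_singleton]
        constructor
        · exact h5 x
        · rintro rfl
          rw [← h5 g hg]
          exact hg
      refine hc B ?_ ?_ h9
      · rw [mem_powersetCard]
        refine ⟨subset_univ _, ?_⟩
        have h6 := card_le_card (hsub g hg)
        have h7 := hcard g hg
        omega
      · rw [h2, h9]
    refine (many hr hq hBr).trans (card_le_card ?_)
    intro C hC
    obtain ⟨h4, h5⟩ := mem_filter.1 hC
    rw [mem_filter, mem_filter]
    refine ⟨⟨h4, fun h6 => ?_⟩, h5⟩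
    have h7 : ind C ∈ att G C := by rw [h6]; exact mem_singleton_self _
    have hCG := (mem_att.1 h7).1
    have h8 : ind C ∈ X := by
      rw [← h2]
      refine mem_att.2 ⟨hCG, ?_⟩
      rw [val_ind, inter_eq_left.2 h5, hmB]
    have h9 : 0 < mx G C := by
      refine lt_of_lt_of_le ?_ (val_le_mx hCG C)
      rw [val_ind, inter_self, (mem_powersetCard.1 h4).2]
      omega
    have h10 : att G C = X := by
      refine (mem_filter.1 hX).2 _ (mem_img.2 ⟨C, h9, rfl⟩) ?_
      rw [h6]
      exact singleton_subset_iff.2 h8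
    exact hc C h4 h6 (by rw [← h10, h6])

theorem card_tmin_le (hG : ∀ g ∈ G, ∑ i, g i = r) (hGn : G.Nonempty) (hr : 1 ≤ r)
    (hq : 2 ^ r + r ≤ q + 1) : (tmin G).card ≤ q.choose r := by
  classical
  have hrq : r ≤ q := by
    have : 1 ≤ 2 ^ r := Nat.one_le_two_pow
    omega
  have hex : ∀ X, ∃ B, X ∈ tmin G → 0 < mx G B ∧ att G B = X ∧
      ∀ B', 0 < mx G B' → att G B' = X → B.card ≤ B'.card := by
    intro X
    by_cases hX : X ∈ tmin G
    · obtain ⟨B, hB⟩ := exists_rep hX
      exact ⟨B, fun _ => hB⟩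
    · exact ⟨∅, fun h => absurd h hX⟩
  choose b hb using hex
  set Y0 := (powersetCard r (univ : Finset (Fin q))).filter fun C => att G C = {ind C} with hY0
  set W0 := (powersetCard r (univ : Finset (Fin q))).filter fun C => att G C ≠ {ind C} with hW0
  have hYW : Y0.card + W0.card = q.choose r := by
    rw [hY0, hW0, Finset.card_filter_add_card_filter_not, card_powersetCard, card_univ, Fintype.card_fin]
  set T0 := (tmin G).filter fun X => ∃ C ∈ Y0, X = {ind C} with hT0
  set T1 := (tmin G).filter fun X => ¬ ∃ C ∈ Y0, X = {ind C} with hT1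
  have hT : T0.card + T1.card = (tmin G).card := Finset.card_filter_add_card_filter_not _
  have h0 : T0.card ≤ Y0.card := by
    refine (card_le_card (t := Y0.image fun C => {ind C}) ?_).trans card_image_le
    intro X hX
    obtain ⟨-, C, hC, rfl⟩ := mem_filter.1 hX
    exact mem_image_of_mem _ hC
  have h1 : T1.card * (q - r + 1) ≤ W0.card * 2 ^ r := by
    refine Finset.card_mul_le_card_mul (fun X C => b X ⊆ C) ?_ ?_
    · intro X hX
      obtain ⟨h2, h3⟩ := mem_filter.1 hX
      obtain ⟨h4, h5, h6⟩ := hb X h2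
      refine claim hG hGn hr hrq h2 h4 h5 h6 ?_
      intro C hC hC2 hXC
      exact h3 ⟨C, mem_filter.2 ⟨hC, hC2⟩, hXC⟩
    · intro C hC
      have h2 : C.card = r := (mem_powersetCard.1 (mem_filter.1 hC).1).2
      rw [← h2, ← card_powerset]
      refine card_le_card_of_injOn b ?_ ?_
      · intro X hX
        rw [mem_coe, Finset.mem_bipartiteBelow] at hX
        rw [mem_coe, mem_powerset]
        exact hX.2
      · intro X hX X' hX' hXX
        rw [mem_coe, Finset.mem_bipartiteBelow] at hX hX'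
        have h3 := (hb X (mem_filter.1 hX.1).1).2.1
        have h4 := (hb X' (mem_filter.1 hX'.1).1).2.1
        rw [← h3, ← h4, hXX]
  have h2 : T1.card ≤ W0.card := by
    have h3 : 2 ^ r ≤ q - r + 1 := by omega
    have h4 : T1.card * (q - r + 1) ≤ W0.card * (q - r + 1) :=
      h1.trans (Nat.mul_le_mul_left _ h3)
    exact Nat.le_of_mul_le_mul_right h4 (by omega)
  omega

end Q36.PD
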