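import Pool.Agent.Q36.PD.KK
import Pool.Agent.Q36.PD.Count

set_option autoImplicit false

/-!
The homology of the complexes vanishes in degrees `≥ q.choose r`.
-/

namespace Q36.PD

open Finset Q36.FD

variable {N q r : ℕ} {k : Type*} [Field k]

theorem acy_full (A : Fin N → Finset (Fin q)) (hA : ∀ B : Finset (Fin q), B.Nonempty →
    ∃ v, A v = B) (hr : 1 ≤ r) (hq : 2 ^ r + r ≤ q + 1) {i : ℕ} (hi : q.choose r ≤ i)
    (c : Fin N → ℕ) : Acy k (KK r A c) i := by
  classical
  have hrq : r ≤ q := by
    have : 1 ≤ 2 ^ r := Nat.one_le_two_pow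
    omega
  have hi1 : 1 ≤ i := le_trans (Nat.choose_pos hrq) hi
  set G : Finset (Fin q → ℕ) := (piAntidiag (univ : Finset (Fin q)) r).filter
    fun a => ∀ v, val a (A v) ≤ c v with hGdef
  have memG : ∀ a, a ∈ G ↔ ∑ i, a i = r ∧ ∀ v, val a (A v) ≤ c v := by
    intro a
    rw [hGdef, mem_filter, mem_piAntidiag]
    simp
  have hG : ∀ g ∈ G, ∑ i, g i = r := fun g hg => ((memG g).1 hg).1
  rcases G.eq_empty_or_nonempty with hGe | hGn
  · refine acy_empty (fun T hT => ?_) i
    obtain ⟨a, h1, h2⟩ := hT
    have h3 : a ∈ G := (memG a).2 ⟨h1, fun v => by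
      have := h2 v
      unfold val
      omega⟩
    rw [hGe] at h3
    exact notMem_empty _ h3
  by_cases hcone : ∃ v, ∀ g ∈ G, val g (A v) < c v
  · obtain ⟨v, hv⟩ := hcone
    intro z hz
    refine cone v hz fun T hT => ?_
    obtain ⟨a, h1, h2⟩ := (hz.1 T hT).1
    have h3 : a ∈ G := (memG a).2 ⟨h1, fun u => by
      have := h2 u
      unfold val
      omega⟩
    refine ⟨a, h1, fun u => ?_⟩
    by_cases hu : u = v
    · rw [hu, if_pos (mem_insert_self _ _)]
      exact hv a h3
    · have h4 := h2 u
      simp only [mem_insert, hu, false_or]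
      exact h4
  · have hmx : ∀ v, mx G (A v) = c v := by
      intro v
      apply le_antisymm
      · exact Finset.sup_le fun g hg => ((memG g).1 hg).2 v
      · by_contra h
        exact hcone ⟨v, fun g hg => lt_of_le_of_lt (val_le_mx hg _) (not_le.1 h)⟩
    have memKK : ∀ T, T ∈ KK r A c ↔ ∃ a ∈ G, ∀ v ∈ T, a ∉ att G (A v) := by
      intro T
      constructor
      · rintro ⟨a, h1, h2⟩
        refine ⟨a, (memG a).2 ⟨h1, fun v => by
          have := h2 v
          unfold val
          omega⟩, fun v hv h3 => ?_⟩
        have h4 := (mem_att.1 h3).2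
        have h5 := h2 v
        rw [if_pos hv] at h5
        rw [hmx] at h4
        unfold val at h4
        omega
      · rintro ⟨a, h1, h2⟩
        refine ⟨a, hG a h1, fun v => ?_⟩
        have h3 := ((memG a).1 h1).2 v
        split_ifs with h4
        · have h5 : val a (A v) ≠ c v := fun h6 => h2 v h4 (mem_att.2 ⟨h1, by rw [hmx]; exact h6⟩)
          unfold val at h3 h5
          omega
        · exact h3
    have hex : ∀ X, ∃ v, X ∈ tmin G → att G (A v) = X := by
      intro X
      by_cases hX : X ∈ tmin G
      · obtain ⟨B, h1, h2, -⟩ := exists_rep hX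
        have h3 : B.Nonempty := by
          rw [nonempty_iff_ne_empty]
          rintro rfl
          have : mx G (∅ : Finset (Fin q)) = 0 := by
            unfold mx val
            simp
          omega
        obtain ⟨v, hv⟩ := hA B h3
        exact ⟨v, fun _ => by rw [hv]; exact h2⟩
      · obtain ⟨v, -⟩ := hA univ ⟨⟨0, by omega⟩, mem_univ _⟩
        exact ⟨v, fun h => absurd h hX⟩
    choose w hw using hex
    set U := (tmin G).image w with hU
    have hUc : U.card ≤ i := (card_image_le.trans (card_tmin_le hG hGn hr hq)).trans hi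
    have hdom : ∀ v, ∃ u ∈ U, att G (A u) ⊆ att G (A v) := by
      intro v
      by_cases h0 : 0 < mx G (A v)
      · obtain ⟨X, hX, hX2⟩ := exists_tmin h0
        exact ⟨w X, mem_image_of_mem _ hX, by rw [hw X hX]; exact hX2⟩
      · have h1 : 0 < mx G univ := by
          obtain ⟨g, hg⟩ := hGn
          refine lt_of_lt_of_le ?_ (val_le_mx hg univ)
          unfold val
          rw [hG g hg]
          omega
        obtain ⟨X, hX, hX2⟩ := exists_tmin h1
        refine ⟨w X, mem_image_of_mem _ hX, ?_⟩
        intro g hg
        have hgG := (mem_att.1 hg).1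
        refine mem_att.2 ⟨hgG, ?_⟩
        have h2 := val_le_mx hgG (A v)
        omega
    have main : ∀ S : Finset (Fin N), Acy k {T | T ∈ KK r A c ∧ T ⊆ U ∪ S} i := by
      intro S
      induction S using Finset.induction_on with
      | empty =>
        refine acy_small U ?_ hUc hi1
        rintro T ⟨-, h1⟩
        rwa [union_empty] at h1
      | insert v S hvS ih =>
        by_cases hv : v ∈ U ∪ S
        · have : U ∪ insert v S = U ∪ S := by
            rw [union_insert, insert_eq_of_mem hv]
          rw [this]
          exact ih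
        · obtain ⟨u, hu, huv⟩ := hdom v
          have huv' : u ≠ v := by
            rintro rfl
            exact hv (mem_union_left _ hu)
          refine acy_dom ?_ huv' ?_ ?_
          · rintro T ⟨h1, h2⟩ S' hS'
            exact ⟨KK_down A c T h1 S' hS', hS'.trans h2⟩
          · rintro T ⟨h1, h2⟩ hvT
            refine ⟨?_, insert_subset (mem_union_left _ hu) h2⟩
            rw [memKK] at h1 ⊢
            obtain ⟨a, ha, h3⟩ := h1
            refine ⟨a, ha, fun x hx => ?_⟩
            rcases mem_insert.1 hx with h4 | h4
            · rw [h4]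
              exact fun h5 => h3 v hvT (huv h5)
            · exact h3 x h4
          · have e : {T | T ∈ {T | T ∈ KK r A c ∧ T ⊆ U ∪ insert v S} ∧ v ∉ T} =
                {T | T ∈ KK r A c ∧ T ⊆ U ∪ S} := by
              ext T
              simp only [Set.mem_ofPred_eq]
              constructor
              · rintro ⟨⟨h1, h2⟩, h3⟩
                refine ⟨h1, fun x hx => ?_⟩
                have h4 := h2 hx
                rw [union_insert, mem_insert] at h4
                rcases h4 with h4 | h4
                · exact absurd (h4 ▸ hx) h3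
                · exact h4
              · rintro ⟨h1, h2⟩
                refine ⟨⟨h1, h2.trans ?_⟩, fun h3 => hv (h2 h3)⟩
                rw [union_insert]
                exact subset_insert _ _
            rw [e]
            exact ih
    have h1 := main univ
    have e : {T | T ∈ KK r A c ∧ T ⊆ U ∪ univ} = KK r A c := by
      ext T
      simp only [Set.mem_ofPred_eq]
      exact ⟨fun h => h.1, fun h => ⟨h, (subset_univ T).trans subset_union_right⟩⟩
    rwa [e] at h1

/-- every family of sets -/
theorem acy_any {n : ℕ} (A : Fin n → Finset (Fin q)) (hr : 1 ≤ r) (hq : 2 ^ r + r ≤ q + 1) {i : ℕ}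
    (hi : q.choose r ≤ i) (c : Fin n → ℕ) : Acy k (KK r A c) i := by
  classical
  let p := Fintype.card (Finset (Fin q))
  let e : Fin p ≃ Finset (Fin q) := (Fintype.equivFin _).symm
  let A' : Fin (n + p) → Finset (Fin q) := Fin.addCases A e
  let c' : Fin (n + p) → ℕ := Fin.addCases c fun _ => r
  have hl : ∀ v, A' (Fin.castAdd p v) = A v := fun v => Fin.addCases_left v
  have hrr : ∀ j, A' (Fin.natAdd n j) = e j := fun j => Fin.addCases_right j
  have hl' : ∀ v, c' (Fin.castAdd p v) = c v := fun v => Fin.addCases_left v
  have hrr' : ∀ j, c' (Fin.natAdd n j) = r := fun j => Fin.addCases_right j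
  have h1 := acy_KK_del (k := k) (r := r) A' i (fun c'' => acy_full A' (fun B _ =>
    ⟨Fin.natAdd n (e.symm B), by rw [hrr, Equiv.apply_symm_apply]⟩) hr hq hi c'')
    (univ.map (Fin.natAddEmb n)) c'
  refine acy_transfer (p := p) ?_ ?_ h1
  · intro T
    simp only [Set.mem_ofPred_eq]
    constructor
    · rintro ⟨⟨a, h2, h3⟩, -⟩
      refine ⟨a, h2, fun v => ?_⟩
      have h4 := h3 (Fin.castAdd p v)
      rw [hl, hl'] at h4
      have h5 : (Fin.castAdd p v ∈ T.map (Fin.castAddEmb p)) ↔ v ∈ T :=
        mem_map' (Fin.castAddEmb p)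
      simp only [h5] at h4
      exact h4
    · rintro ⟨a, h2, h3⟩
      refine ⟨⟨a, h2, fun v => ?_⟩, ?_⟩
      · induction v using Fin.addCases with
        | left v =>
          rw [hl, hl']
          have h5 : (Fin.castAdd p v ∈ T.map (Fin.castAddEmb p)) ↔ v ∈ T :=
            mem_map' (Fin.castAddEmb p)
          simp only [h5]
          exact h3 v
        | right j =>
          rw [hrr, hrr', if_neg, add_zero, ← h2]
          · exact sum_le_sum_of_subset (subset_univ _)
          · intro h5
            obtain ⟨v, -, hv⟩ := mem_map.1 h5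
            have h6 := congrArg Fin.val hv
            simp at h6
            omega
      · rw [disjoint_left]
        intro x hx hx2
        obtain ⟨v, -, hv⟩ := mem_map.1 hx
        obtain ⟨j, -, hj⟩ := mem_map.1 hx2
        rw [← hj] at hv
        have h6 := congrArg Fin.val hv
        simp at h6
        omega
  · rintro T ⟨-, h2⟩
    refine ⟨univ.filter fun v => Fin.castAddEmb p v ∈ T, ?_⟩
    ext x
    rw [mem_map]
    constructor
    · intro hx
      induction x using Fin.addCases with
      | left v =>
        exact ⟨v, mem_filter.2 ⟨mem_univ _, hx⟩, rfl⟩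
      | right j =>
        exact absurd (mem_map.2 ⟨j, mem_univ _, rfl⟩) (disjoint_left.1 h2 hx)
    · rintro ⟨v, hv, rfl⟩
      exact (mem_filter.1 hv).2

end Q36.PD
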