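import Pool.Agent.Q36.PD.Full
import Pool.Agent.Q36.FD.Kos

set_option autoImplicit false

/-!
Powers of square-free monomial ideals: vanishing of the Betti numbers.
-/

namespace Q36.PD

open Finset MvPolynomial Q36.FD

variable {n q : ℕ} {K : Type*} [Field K]

lemma pow_span {R : Type*} [CommRing R] (f : Fin q → R) (r : ℕ) :
    Ideal.span (Set.range f) ^ r =
      Ideal.span {x | ∃ a : Fin q → ℕ, ∑ i, a i = r ∧ x = ∏ i, f i ^ a i} := by
  apply le_antisymm
  · induction r with
    | zero =>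
      rw [pow_zero, Ideal.one_eq_top, top_le_iff, Ideal.eq_top_iff_one]
      exact Ideal.subset_span ⟨0, by simp, by simp⟩
    | succ r ih =>
      rw [pow_succ]
      refine (Ideal.mul_mono_left ih).trans ?_
      rw [Ideal.span_mul_span', Ideal.span_le]
      rintro _ ⟨_, ⟨a, ha, rfl⟩, _, ⟨i, rfl⟩, rfl⟩
      apply Ideal.subset_span
      refine ⟨a + Pi.single i 1, ?_, ?_⟩
      · simp only [Pi.add_apply, sum_add_distrib, ha]
        rw [Finset.sum_pi_single', if_pos (mem_univ _)]
      · simp only [Pi.add_apply, pow_add, prod_mul_distrib]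
        congr 1
        rw [Finset.prod_eq_single i]
        · rw [Pi.single_eq_same, pow_one]
        · intro j _ hj
          rw [Pi.single_eq_of_ne hj, pow_zero]
        · intro h; exact absurd (mem_univ _) h
  · rw [Ideal.span_le]
    rintro _ ⟨a, ha, rfl⟩
    have h1 : ∏ i, f i ^ a i ∈ ∏ i, Ideal.span (Set.range f) ^ a i :=
      Ideal.prod_mem_prod fun i _ =>
        Ideal.pow_mem_pow (show f i ∈ Ideal.span (Set.range f) from Ideal.subset_span ⟨i, rfl⟩) _
    rw [Finset.prod_pow_eq_pow_sum, ha] at h1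
    exact h1

/-- the generators whose monomial contains the variable `v` -/
def av (m : Fin q → Fin n →₀ ℕ) (v : Fin n) : Finset (Fin q) := univ.filter fun j => m j v = 1

lemma mem_pow_iff (m : Fin q → Fin n →₀ ℕ) (hm : ∀ j v, m j v ≤ 1) (r : ℕ) (s : Fin n →₀ ℕ) :
    monomial s (1 : K) ∈ Ideal.span (Set.range fun j => monomial (m j) (1 : K)) ^ r ↔
      ∃ a : Fin q → ℕ, ∑ i, a i = r ∧ ∀ v, ∑ i ∈ av m v, a i ≤ s v := by
  have hsum : ∀ (a : Fin q → ℕ) (v : Fin n), (∑ j, a j • m j) v = ∑ i ∈ av m v, a i := by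
    intro a v
    rw [Finsupp.finsetSum_apply]
    unfold av
    rw [Finset.sum_filter]
    refine sum_congr rfl fun j _ => ?_
    rw [Finsupp.smul_apply, smul_eq_mul]
    have := hm j v
    split_ifs with h
    · rw [h, mul_one]
    · have : m j v = 0 := by omega
      rw [this, mul_zero]
  have hset : {x | ∃ a : Fin q → ℕ, ∑ i, a i = r ∧
      x = ∏ i, (monomial (m i) (1 : K)) ^ a i} =
      (fun s => monomial s (1 : K)) '' {t | ∃ a : Fin q → ℕ, ∑ i, a i = r ∧
        t = ∑ j, a j • m j} := by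
    ext x
    constructor
    · rintro ⟨a, h1, rfl⟩
      refine ⟨_, ⟨a, h1, rfl⟩, ?_⟩
      simp only [monomial_pow, one_pow, monomial_sum_one]
    · rintro ⟨_, ⟨a, h1, rfl⟩, rfl⟩
      refine ⟨a, h1, ?_⟩
      simp only [monomial_pow, one_pow, monomial_sum_one]
  rw [pow_span, hset, mem_ideal_span_monomial_image]
  constructor
  · intro h
    obtain ⟨_, ⟨a, h1, rfl⟩, h2⟩ := h s (by
      rw [mem_support_iff, coeff_monomial, if_pos rfl]
      exact one_ne_zero)
    exact ⟨a, h1, fun v => by rw [← hsum]; exact h2 v⟩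
  · rintro ⟨a, h1, h2⟩ x hx
    have hxs : x = s := by
      rw [mem_support_iff, coeff_monomial] at hx
      by_contra h
      exact hx (if_neg fun h' => h h'.symm)
    rw [hxs]
    exact ⟨_, ⟨a, h1, rfl⟩, fun v => by rw [hsum]; exact h2 v⟩

/-- **Main theorem.** -/
theorem betti_pow_eq_zero {r : ℕ} (hr : 1 ≤ r) (hq : 2 ^ r + r ≤ q + 1)
    (m : Fin q → Fin n →₀ ℕ) (hm : ∀ j v, m j v ≤ 1) {i : ℕ} (hi : q.choose r ≤ i)
    (a : Fin n →₀ ℕ) :
    betti (Ideal.span (Set.range fun j => monomial (m j) (1 : K)) ^ r) i a = 0 := by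
  rw [betti_eq_cb]
  have e : KX (Ideal.span (Set.range fun j => monomial (m j) (1 : K)) ^ r) a =
      KK r (av m) a := by
    ext T
    constructor
    · rintro ⟨h1, h2⟩
      rw [mem_pow_iff m hm] at h2
      obtain ⟨b, h3, h4⟩ := h2
      refine ⟨b, h3, fun v => ?_⟩
      have h5 := h1 v
      have h6 := h4 v
      rw [Finsupp.tsub_apply, sqf_apply] at h6
      rw [sqf_apply] at h5
      omega
    · rintro ⟨b, h3, h4⟩
      have h1 : sqf T ≤ a := by
        intro v
        rw [sqf_apply]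
        have := h4 v
        omega
      refine ⟨h1, (mem_pow_iff m hm r _).2 ⟨b, h3, fun v => ?_⟩⟩
      rw [Finsupp.tsub_apply, sqf_apply]
      have := h4 v
      omega
  rw [e]
  exact cb_eq_zero (acy_any (av m) hr hq hi a)

end Q36.PD
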