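import Pool.Agent.Q36.PD.Acy

set_option autoImplicit false

/-!
The upper Koszul complexes of powers of square-free monomial ideals.
-/

namespace Q36.PD

open Finset Q36.FD

variable {N q r : ℕ} {k : Type*} [Field k]

/-- The family of the sets `T` of variables such that some vector `a` of total weight `r` satisfies
`a(A v) + [v ∈ T] ≤ c v` for all `v`. -/
def KK (r : ℕ) (A : Fin N → Finset (Fin q)) (c : Fin N → ℕ) : Set (Finset (Fin N)) :=
  {T | ∃ a : Fin q → ℕ, ∑ i, a i = r ∧ ∀ v, ∑ i ∈ A v, a i + (if v ∈ T then 1 else 0) ≤ c v}

lemma KK_down (A : Fin N → Finset (Fin q)) (c : Fin N → ℕ) : Down (KK r A c) := by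
  rintro T ⟨a, h1, h2⟩ S hST
  refine ⟨a, h1, fun v => ?_⟩
  have h3 := h2 v
  have h4 : (if v ∈ S then 1 else 0) ≤ (if v ∈ T then 1 else 0) := by
    by_cases h5 : v ∈ S
    · rw [if_pos h5, if_pos (hST h5)]
    · rw [if_neg h5]; exact Nat.zero_le _
  omega

lemma acy_empty {F : Set (Finset (Fin N))} (h : ∀ T, T ∉ F) (i : ℕ) : Acy k F i := by
  refine acy_of_zero fun c hc => ?_
  funext T
  by_contra h1
  exact h T (hc.1 T h1).1

theorem acy_KK_del (A : Fin N → Finset (Fin q)) (i : ℕ) (h : ∀ c, Acy k (KK r A c) i)
    (D : Finset (Fin N)) : ∀ c, Acy k {T | T ∈ KK r A c ∧ Disjoint T D} i := by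
  classical
  induction D using Finset.induction_on with
  | empty =>
    intro c
    have : {T | T ∈ KK r A c ∧ Disjoint T (∅ : Finset (Fin N))} = KK r A c := by
      ext T
      simp
    rw [this]
    exact h c
  | insert v D hvD ih =>
    intro c
    generalize ht : c v = t
    induction t generalizing c with
    | zero =>
      have e : {T | T ∈ KK r A c ∧ Disjoint T (insert v D)} =
          {T | T ∈ {T | T ∈ KK r A c ∧ Disjoint T D} ∧ v ∉ T} := by
        ext T
        simp only [Set.mem_ofPred_eq, disjoint_insert_right]
        tauto
      rw [e]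
      refine acy_del ?_ (ih c) (acy_empty ?_ i)
      · rintro T ⟨h1, h2⟩ S hS
        exact ⟨KK_down A c T h1 S hS, disjoint_of_subset_left hS h2⟩
      · rintro T ⟨h1, ⟨a, -, h2⟩, -⟩
        have h3 := h2 v
        rw [if_pos (mem_insert_self _ _), ht] at h3
        omega
    | succ t iht =>
      have e : {T | T ∈ KK r A c ∧ Disjoint T (insert v D)} =
          {T | T ∈ {T | T ∈ KK r A c ∧ Disjoint T D} ∧ v ∉ T} := by
        ext T
        simp only [Set.mem_ofPred_eq, disjoint_insert_right]
        tauto
      rw [e]
      refine acy_del ?_ (ih c) ?_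
      · rintro T ⟨h1, h2⟩ S hS
        exact ⟨KK_down A c T h1 S hS, disjoint_of_subset_left hS h2⟩
      · have e2 : {T | v ∉ T ∧ insert v T ∈ {T | T ∈ KK r A c ∧ Disjoint T D}} =
            {T | T ∈ KK r A (Function.update c v t) ∧ Disjoint T (insert v D)} := by
          ext T
          simp only [Set.mem_ofPred_eq, disjoint_insert_right, disjoint_insert_left]
          constructor
          · rintro ⟨h1, ⟨a, h2, h3⟩, h4, h5⟩
            refine ⟨⟨a, h2, fun u => ?_⟩, h1, h5⟩
            by_cases hu : u = v
            · subst hu
              have h6 := h3 u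
              rw [if_pos (mem_insert_self _ _), ht] at h6
              rw [if_neg h1, Function.update_self]
              omega
            · have h6 := h3 u
              rw [Function.update_of_ne hu]
              simp only [mem_insert, hu, false_or] at h6
              exact h6
          · rintro ⟨⟨a, h2, h3⟩, h1, h5⟩
            refine ⟨h1, ⟨a, h2, fun u => ?_⟩, hvD, h5⟩
            by_cases hu : u = v
            · subst hu
              have h6 := h3 u
              rw [if_neg h1, Function.update_self] at h6
              rw [if_pos (mem_insert_self _ _), ht]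
              omega
            · have h6 := h3 u
              rw [Function.update_of_ne hu] at h6
              simp only [mem_insert, hu, false_or]
              exact h6
        rw [e2]
        exact iht (Function.update c v t) (Function.update_self _ _ _)

end Q36.PD
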